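import Mathlib
import Pool.Agent.H180.FF.Stmts2
import Pool.Agent.H180.RS.EvS
import Pool.Agent.Q210.RS.Comm
import Pool.Agent.Q6.RS.Cheb0

/-!
# Products over split pairs are not squares in fields of odd degree over an abelian field
-/

set_option autoImplicit false

namespace Pool.Agent.Q210.FF

open Finset NumberField Polynomial Pool.Agent.H180.RS

/-- squares descend along extensions of odd degree -/
theorem isSquare_of_odd {A B : Type} [Field A] [Field B] [Algebra A B]
    (h : Odd (Module.finrank A B)) (P : A) (hP : IsSquare (algebraMap A B P)) : IsSquare P := by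
  by_cases h0 : P = 0
  · exact ⟨0, by rw [h0, mul_zero]⟩
  obtain ⟨w, hw⟩ := hP
  obtain ⟨k, hk⟩ := h
  have h1 := congrArg (Algebra.norm A) hw
  rw [Algebra.norm_algebraMap, map_mul, hk] at h1
  refine ⟨Algebra.norm A w / P ^ k, ?_⟩
  rw [div_mul_div_comm, ← h1]
  field_simp
  ring

/-- the small units and two are squares if there is an eighth root of unity -/
theorem isSquare_small {C : Type} [Field C] (η : C) (hη : IsPrimitiveRoot η 8) (d : ℤ)
    (hd : d = 1 ∨ d = -1 ∨ d = 2 ∨ d = -2) : IsSquare (d : C) := by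
  have h1 : IsPrimitiveRoot (η ^ 4) 2 := hη.pow (by norm_num) (by norm_num)
  have h2 : η ^ 4 = -1 := h1.eq_neg_one_of_two_right
  have h3 : IsSquare (-1 : C) := ⟨η ^ 2, by rw [← h2]; ring⟩
  have h4 : IsSquare (2 : C) := ⟨η - η ^ 3, by linear_combination (2 - η ^ 2) * h2⟩
  rcases hd with rfl | rfl | rfl | rfl
  · exact ⟨1, by push_cast; ring⟩
  · push_cast; exact h3
  · push_cast; exact h4
  · have := h3.mul h4
    push_cast
    rwa [neg_one_mul] at this

/-- square roots of signed primes in a field with roots of unity -/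
theorem exists_sqrt_field {K : Type} [Field K] [CharZero K] (m : ℕ) (hm : m ≠ 0) (ζ : K)
    (hζ : IsPrimitiveRoot ζ m) (p : ℕ) (hp : p.Prime) (h2 : p ≠ 2) (hpm : p ∣ m) :
    ∃ r : K, r ^ 2 = (st p : K) := by
  have : NeZero m := ⟨hm⟩
  have hcy : IsCyclotomicExtension {m} ℚ (CyclotomicField m ℚ) :=
    CyclotomicField.isCyclotomicExtension m ℚ
  obtain ⟨r, hr⟩ := exists_sqrt_int (M := m) (L := CyclotomicField m ℚ) (S := {p})
    (by simpa using ⟨hp, h2, hpm⟩)
  obtain ⟨e⟩ := IsCyclotomicExtension.nonempty_algEquiv_adjoin_of_exists_isPrimitiveRoot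
    {m} ℚ (CyclotomicField m ℚ) K (fun n hn _ => by
      rw [Set.mem_singleton_iff] at hn
      subst hn
      exact ⟨_, hζ⟩)
  have h3 := congrArg (fun t : 𝓞 (CyclotomicField m ℚ) =>
    ((e (t : CyclotomicField m ℚ) : IntermediateField.adjoin ℚ
      {x : K | ∃ n ∈ ({m} : Set ℕ), n ≠ 0 ∧ x ^ n = 1}) : K)) hr
  refine ⟨(e (r : CyclotomicField m ℚ) : K), ?_⟩
  rw [prod_singleton] at h3
  simpa using h3

theorem st_mod {p : ℕ} (hp : p.Prime) (h2 : p ≠ 2) : st p % 4 = 1 := by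
  have h := hp.eq_two_or_odd
  unfold st
  split_ifs with h3 <;> omega

theorem st_dvd {p : ℕ} {a : ℤ} : st p ∣ a ↔ (p : ℤ) ∣ a := by
  unfold st
  split_ifs
  · rfl
  · exact neg_dvd

theorem dvd_st {p : ℕ} {a : ℤ} : a ∣ st p ↔ a ∣ (p : ℤ) := by
  unfold st
  split_ifs
  · rfl
  · exact dvd_neg

theorem st_sqf {p : ℕ} (hp : p.Prime) : Squarefree (st p) := by
  unfold st
  split_ifs
  · exact (Nat.prime_iff_prime_int.mp hp).squarefree
  · exact (Nat.prime_iff_prime_int.mp hp).neg.squarefree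

/-- **ODD.** -/
theorem oddF : Pool.Agent.H180.FF.PropOdd := by
  classical
  intro K _ _ m n hm hn hζ F hF hodd E x y z ρ hE hall d hd hsq
  obtain ⟨ζ, hζ⟩ := hζ
  obtain ⟨j⟩ := hF
  have hm0 : m ≠ 0 := by rintro rfl; exact absurd hm (by decide)
  have hmZ : NeZero m := ⟨hm0⟩
  have hnZ : NeZero n := ⟨hn⟩
  have hprime : ∀ e ∈ E, e.1 ≠ 2 := by
    intro e he h2
    have := (hall e he).2.2.1
    rw [h2] at this
    exact absurd hm (by rw [Nat.not_odd_iff_even, even_iff_two_dvd]; exact this)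
  -- the cyclotomic field
  obtain ⟨M, hMdef⟩ : ∃ M, M = 8 * (m * n) := ⟨_, rfl⟩
  have hMZ : NeZero M := ⟨by rw [hMdef]; positivity⟩
  let C := CyclotomicField M ℚ
  have hcyM : IsCyclotomicExtension {M} ℚ C := CyclotomicField.isCyclotomicExtension M ℚ
  have hcyn : IsCyclotomicExtension {n} ℚ (CyclotomicField n ℚ) :=
    CyclotomicField.isCyclotomicExtension n ℚ
  obtain ⟨i⟩ := Pool.Agent.Q6.RS.exists_emb n M ⟨8 * m, by rw [hMdef]; ring⟩
    (CyclotomicField n ℚ) C
  let _ : Algebra F C := (i.comp j).toAlgebra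
  obtain ⟨η, hη⟩ := IsCyclotomicExtension.exists_isPrimitiveRoot ℚ C (Set.mem_singleton M)
    (NeZero.ne M)
  have hηm : IsPrimitiveRoot (η ^ (8 * n)) m := hη.pow (NeZero.pos M) (by rw [hMdef]; ring)
  have hη8 : IsPrimitiveRoot (η ^ (m * n)) 8 := hη.pow (NeZero.pos M) (by rw [hMdef]; ring)
  have hζI : IsIntegral F ζ := by
    refine IsIntegral.of_pow (n := m) (NeZero.pos m) ?_
    rw [hζ.pow_eq_one]; exact isIntegral_one
  -- the embedding of the field generated by the root of unity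
  obtain ⟨ι⟩ : Nonempty (IntermediateField.adjoin F {ζ} →ₐ[F] C) := by
    refine IntermediateField.nonempty_algHom_adjoin_of_splits ?_
    intro s hs
    rw [Set.mem_singleton_iff] at hs
    subst hs
    refine ⟨hζI, ?_⟩
    have h1 : minpoly F s ∣ X ^ m - 1 := minpoly.dvd F s (by simp [hζ.pow_eq_one])
    have h2 : ((X ^ m - 1 : F[X]).map (algebraMap F C)).Splits := by
      rw [Polynomial.map_sub, Polynomial.map_pow, Polynomial.map_X, Polynomial.map_one]
      exact X_pow_sub_one_splits hηm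
    refine h2.of_dvd ?_ (Polynomial.map_dvd _ h1)
    refine Polynomial.map_ne_zero ?_
    exact (monic_X_pow_sub_C (1 : F) hm0).ne_zero
  let F' := IntermediateField.adjoin F {ζ}
  have hodd' : Odd (Module.finrank F' K) := by
    rw [← Module.finrank_mul_finrank F F' K, Nat.odd_mul] at hodd
    exact hodd.2
  let ζ' : F' := ⟨ζ, IntermediateField.mem_adjoin_simple_self F ζ⟩
  have hζ' : IsPrimitiveRoot ζ' m := by
    refine IsPrimitiveRoot.of_map_of_injective (f := algebraMap F' K) ?_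
      (algebraMap F' K).injective
    exact hζ
  -- the square roots are in the subfield
  have hρ : ∀ e ∈ E, ∃ r : F', algebraMap F' K r = ρ e := by
    intro e he
    obtain ⟨h1, h2, h3, h4, h5, h6, h7, h8, h9, h10⟩ := hall e he
    obtain ⟨r, hr⟩ := exists_sqrt_field m hm0 ζ' hζ' e.1 h1 (hprime e he) h3
    have h11 : (algebraMap F' K r) ^ 2 = ρ e ^ 2 := by
      rw [← map_pow, hr, h10, map_intCast]
    rcases sq_eq_sq_iff_eq_or_eq_neg.mp h11 with h | h
    · exact ⟨r, h⟩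
    · exact ⟨-r, by rw [map_neg, h, neg_neg]⟩
  choose! r hr using hρ
  have hsq2 : IsSquare ((d : F') * ∏ e ∈ E, ((x e : F') + y e * r e)) := by
    refine isSquare_of_odd hodd' _ ?_
    have : algebraMap F' K ((d : F') * ∏ e ∈ E, ((x e : F') + y e * r e)) =
        (d : K) * ∏ e ∈ E, ((x e : K) + y e * ρ e) := by
      rw [map_mul, map_intCast, map_prod]
      congr 1
      refine prod_congr rfl fun e he => ?_
      rw [map_add, map_mul, map_intCast, map_intCast, hr e he]
    rw [this]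
    exact hsq
  have hsq3 : IsSquare ((d : C) * ∏ e ∈ E, ((x e : C) + y e * ι (r e))) := by
    have h := hsq2.map ι
    rw [map_mul, map_intCast, map_prod] at h
    have h2 : ∏ e ∈ E, ι ((x e : F') + y e * r e) = ∏ e ∈ E, ((x e : C) + y e * ι (r e)) := by
      refine prod_congr rfl fun e he => ?_
      rw [map_add, map_mul, map_intCast, map_intCast]
    rwa [h2] at h
  have hd0 : (d : C) ≠ 0 := by
    rw [Int.cast_ne_zero]
    rcases hd with rfl | rfl | rfl | rfl <;> decide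
  have hsq4 : IsSquare (∏ e ∈ E, ((x e : C) + y e * ι (r e))) := by
    have h := hsq3.div (isSquare_small _ hη8 d hd)
    rwa [mul_div_cancel_left₀ _ hd0] at h
  -- the symbols
  obtain ⟨e0, he0⟩ := hE
  have hmul : (m : ℤ) ∣ (M : ℤ) := by
    rw [Int.natCast_dvd_natCast]; exact ⟨8 * n, by rw [hMdef]; ring⟩
  refine Pool.Agent.Q210.RS.comm M C E (fun e => st e.1.1) (fun e => (e.1.2 : ℤ))
    (fun e => x e.1) (fun e => y e.1) (fun e => z e.1) (fun e => ι (r e.1)) ?_ ?_ ?_ ?_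
    e0.1 e0.2 (hall e0 he0).1 (hall e0 he0).2.1 (hall e0 he0).2.2.2.2.1 ?_ ?_
  · rintro ⟨e, he⟩
    obtain ⟨h1, h2, h3, h4, h5, h6, h7, h8, h9, h10⟩ := hall e he
    refine ⟨st_mod h1 (hprime e he), st_sqf h1, ?_⟩
    rw [st_dvd]
    exact (Int.natCast_dvd_natCast.mpr h3).trans hmul
  · rintro ⟨e, he⟩
    obtain ⟨h1, h2, h3, h4, h5, h6, h7, h8, h9, h10⟩ := hall e he
    refine ⟨by simp only; omega, (Nat.prime_iff_prime_int.mp h2).squarefree, ?_⟩
    exact (Int.natCast_dvd_natCast.mpr h4).trans hmul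
  · rintro ⟨e, he⟩
    obtain ⟨h1, h2, h3, h4, h5, h6, h7, h8, h9, h10⟩ := hall e he
    exact ⟨h8, h9⟩
  · rintro ⟨e, he⟩
    obtain ⟨h1, h2, h3, h4, h5, h6, h7, h8, h9, h10⟩ := hall e he
    have h11 : (r e) ^ 2 = (st e.1 : F') := by
      apply (algebraMap F' K).injective
      rw [map_pow, hr e he, h10, map_intCast]
    simp only
    rw [← map_pow, h11, map_intCast]
  · have h1 : ∀ e : E, (((if ((e0.1 : ℕ) : ℤ) ∣ st e.1.1 ∧ ((e0.2 : ℕ) : ℤ) ∣ (e.1.2 : ℤ)
        then 1 else 0) + (if ((e0.2 : ℕ) : ℤ) ∣ st e.1.1 ∧ ((e0.1 : ℕ) : ℤ) ∣ (e.1.2 : ℤ)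
        then 1 else 0) : ℕ)) = if e = ⟨e0, he0⟩ then 1 else 0 := by
      rintro ⟨e, he⟩
      obtain ⟨h1, h2, h3, h4, h5, h6, h7, h8, h9, h10⟩ := hall e he
      obtain ⟨g1, g2, g3, g4, g5, g6, g7, g8, g9, g10⟩ := hall e0 he0
      simp only [dvd_st, Int.natCast_dvd_natCast, Nat.prime_dvd_prime_iff_eq g1 h1,
        Nat.prime_dvd_prime_iff_eq g2 h2, Nat.prime_dvd_prime_iff_eq g2 h1,
        Nat.prime_dvd_prime_iff_eq g1 h2, Subtype.mk.injEq]
      have k1 : ¬ (e0.2 = e.1 ∧ e0.1 = e.2) := by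
        rintro ⟨k1, k2⟩
        apply g7
        have : e0.swap = e := by
          ext
          · exact k1
          · exact k2
        rw [this]; exact he
      have k2 : (e0.1 = e.1 ∧ e0.2 = e.2) ↔ e = e0 := by
        rw [Prod.ext_iff]
        exact ⟨fun h => ⟨h.1.symm, h.2.symm⟩, fun h => ⟨h.1.symm, h.2.symm⟩⟩
      rw [if_neg k1, add_zero]
      simp only [k2]
    rw [Finset.sum_congr rfl fun e _ => h1 e]
    rw [Finset.sum_ite_eq' Finset.univ (⟨e0, he0⟩ : E), if_pos (Finset.mem_univ _)]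
    exact odd_one
  · have h1 : ∏ e : E, ((x e.1 : C) + y e.1 * ι (r e.1)) =
        ∏ e ∈ E, ((x e : C) + y e * ι (r e)) :=
      Finset.prod_coe_sort E fun e => ((x e : C) + y e * ι (r e))
    rw [h1]
    exact hsq4

end Pool.Agent.Q210.FF
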